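import Pool.Agent.Helper16.KX.Defs

/-!
# KX-2: coefficients with respect to the variables `x_(e j)`

* `coef_mem`: by `Helper62.VT.coeff_mem_of_mem_W` it suffices that `split e X A ∈ W r (adjoin ℂ S)`; check it on
  the generators (the preimage of a subalgebra under an algebra map is a subalgebra, `Algebra.adjoin_le`,
  `Subalgebra.comap`): `split e X (X (e j)) = X j` (`split_X_mem`, `X_mem_W`), and
  `split e X x = C x` for `x` without the variables `e j` (`split_X_not`; `x ∈ adjoin` of the `X i`, `i ∈ x.vars`,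
  `MvPolynomial.mem_supported_vars`), `C_mem_W`.
* `coef_vars`: apply `coef_mem` with `S` the set of the `X i`, `i ∈ A.vars`, `i` not in the range of `e`, and
  `MvPolynomial.mem_supported`.
-/

set_option autoImplicit false
set_option linter.unusedSectionVars false

namespace Pool.Agent.Helper16.KX

open MvPolynomial Finset
open Pool.Agent.Helper62.VT (split)

variable {n : ℕ}

private theorem split_C_of_vars {r : ℕ} {e : Fin r → Fin n}
    (x : MvPolynomial (Fin n) ℂ) (hx : ∀ j, e j ∉ x.vars) :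
    split e (X : Fin n → MvPolynomial (Fin n) ℂ) x = C x := by
  have h1 : x ∈ supported ℂ {i : Fin n | ∀ j, e j ≠ i} := by
    rw [mem_supported]
    intro i hi j hj
    exact hx j (by rw [hj]; exact hi)
  rw [supported_eq_adjoin_X] at h1
  induction h1 using Algebra.adjoin_induction with
  | mem y hy =>
    obtain ⟨i, hi, rfl⟩ := hy
    exact Pool.Agent.Helper62.VT.split_X_not _ hi
  | algebraMap c =>
    rw [AlgHom.commutes]
    rfl
  | add a b ha' hb' ha hb =>
    have h2 : ∀ y ∈ Algebra.adjoin ℂ (X '' {i : Fin n | ∀ j, e j ≠ i}), ∀ j,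
        e j ∉ (y : MvPolynomial (Fin n) ℂ).vars := by
      intro y hy j hj
      rw [← supported_eq_adjoin_X, mem_supported] at hy
      exact hy hj j rfl
    rw [map_add, ha (h2 a ha'), hb (h2 b hb'), C_add]
  | mul a b ha' hb' ha hb =>
    have h2 : ∀ y ∈ Algebra.adjoin ℂ (X '' {i : Fin n | ∀ j, e j ≠ i}), ∀ j,
        e j ∉ (y : MvPolynomial (Fin n) ℂ).vars := by
      intro y hy j hj
      rw [← supported_eq_adjoin_X, mem_supported] at hy
      exact hy hj j rfl
    rw [map_mul, ha (h2 a ha'), hb (h2 b hb'), C_mul]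

theorem coef_mem {r : ℕ} {e : Fin r → Fin n} (he : Function.Injective e)
    (S : Set (MvPolynomial (Fin n) ℂ)) (hS : ∀ x ∈ S, ∀ j, e j ∉ x.vars)
    (A : MvPolynomial (Fin n) ℂ)
    (hA : A ∈ Algebra.adjoin ℂ (Set.range (fun j => (X (e j) : MvPolynomial (Fin n) ℂ)) ∪ S))
    (k : Fin r →₀ ℕ) :
    coeff k (split e (X : Fin n → MvPolynomial (Fin n) ℂ) A) ∈ Algebra.adjoin ℂ S := by
  apply Pool.Agent.Helper62.VT.coeff_mem_of_mem_W
  have h1 : Algebra.adjoin ℂ (Set.range (fun j => (X (e j) : MvPolynomial (Fin n) ℂ)) ∪ S) ≤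
      (Pool.Agent.Helper62.VT.W r (Algebra.adjoin ℂ S)).comap
        (split e (X : Fin n → MvPolynomial (Fin n) ℂ)) := by
    rw [Algebra.adjoin_le_iff]
    rintro x (⟨j, rfl⟩ | hx)
    · change split e (X : Fin n → MvPolynomial (Fin n) ℂ) (X (e j)) ∈
        Pool.Agent.Helper62.VT.W r (Algebra.adjoin ℂ S)
      rw [Pool.Agent.Helper62.VT.split_X_mem he]
      exact Pool.Agent.Helper62.VT.X_mem_W _ j
    · change split e (X : Fin n → MvPolynomial (Fin n) ℂ) x ∈
        Pool.Agent.Helper62.VT.W r (Algebra.adjoin ℂ S)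
      rw [split_C_of_vars x (hS x hx)]
      exact Pool.Agent.Helper62.VT.C_mem_W (Algebra.subset_adjoin hx)
  exact h1 hA

theorem coef_vars {r : ℕ} {e : Fin r → Fin n} (he : Function.Injective e)
    (A : MvPolynomial (Fin n) ℂ) (k : Fin r →₀ ℕ) (i : Fin n)
    (hi : i ∈ (coeff k (split e (X : Fin n → MvPolynomial (Fin n) ℂ) A)).vars) :
    i ∈ A.vars ∧ ∀ j, e j ≠ i := by
  classical
  have h1 := coef_mem he (X '' {i : Fin n | i ∈ A.vars ∧ ∀ j, e j ≠ i}) (by
    rintro x ⟨l, ⟨-, hl⟩, rfl⟩ j hj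
    rw [vars_X, Finset.mem_singleton] at hj
    exact hl j hj) A (by
      have h2 : A ∈ supported ℂ (A.vars : Set (Fin n)) := mem_supported_vars A
      rw [supported_eq_adjoin_X] at h2
      refine Algebra.adjoin_mono ?_ h2
      rintro x ⟨l, hl, rfl⟩
      by_cases h3 : ∃ j, e j = l
      · obtain ⟨j, rfl⟩ := h3
        exact Or.inl ⟨j, rfl⟩
      · push Not at h3
        exact Or.inr ⟨l, ⟨hl, h3⟩, rfl⟩) k
  rw [← supported_eq_adjoin_X, mem_supported] at h1
  exact h1 hi

end Pool.Agent.Helper16.KX
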