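import Pool.Agent.Helper16.KX.Spec
import Pool.Agent.Helper16.KX.Coef
import Pool.Agent.Helper16.KAL.Hyb

set_option autoImplicit false
set_option linter.unusedSectionVars false

/-!
# KX-3: the generator does not kill polynomials in the coefficients of few light polynomials

Apply `Helper16.KAL.hybrid x h0 c`. For a block `b` let `B = part x c b`; it is contained in the full block
`univ.filter (blk c · = b)`. If the full block has at most one element, so has `B`. Otherwise
`∑ i ∈ B, ω i ≤ m`. All variables of `x` are variables of some `A j` and not of the form `e j'`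
(`coef_vars`; `x` is in the algebra generated by the coefficients). Let `W = B ∪ univ.image e` and
`U j = (A j).vars ∩ W`, of weight at most `m + r' * m ≤ (r + 1) * m`. `Light` gives `ρ j` with
`KB (U j) (ρ j) (A j)` and `ρ j + card (U j) ≤ q`, and `kb_enlarge` gives `c' j` without the variables of `W` with
`A j ∈ adjoin (X '' U j ∪ range (c' j))`. By `coef_mem` with `S = X '' B ∪ range (c' j)` all coefficients of `A j`
are in `adjoin (X '' B ∪ range (c' j))`, so `x ∈ adjoin (X '' B ∪ ⋃ j, range (c' j))`. The family of all `c' j k`,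
indexed by `Σ j, Fin (M j)` and transported to `Fin M`, has no `∑ j, ρ j + 1` independent members: an
injective `s : Fin (∑ ρ j + 1) → Σ j, Fin (M j)` has more than `ρ j` values over some `j`, and subfamilies of
independent families are independent. So `KB B (∑ j, ρ j) x`. Finally `B ⊆ ⋃ j, U j`, so
`∑ j, ρ j + card B ≤ ∑ j, (ρ j + card (U j)) ≤ card J * q ≤ q'`.
-/

namespace Pool.Agent.Helper16.KX

open MvPolynomial Finset
open Pool.Agent.Helper16.KAL (KB blk pt part)
open Pool.Agent.Helper62.VT (split)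

variable {n : ℕ}

theorem core {q q' t m r r' : ℕ} (ω : Fin n → ℕ) (c : Fin t → Fin (n + 1))
    (hc : ∀ b, (univ.filter (fun i => blk c i = b)).card ≤ 1 ∨
      ∑ i ∈ univ.filter (fun i => blk c i = b), ω i ≤ m)
    (hr : r' ≤ r) {e : Fin r' → Fin n} (he : Function.Injective e) (hω : ∀ j, ω (e j) ≤ m)
    {J : Type} [Fintype J] (A : J → MvPolynomial (Fin n) ℂ)
    (hA : ∀ j, A j ∈ Light n ω ((r + 1) * m) q) (hq : Fintype.card J * q ≤ q')
    (x : MvPolynomial (Fin n) ℂ)
    (hx : x ∈ Algebra.adjoin ℂ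
      {a | ∃ j k, a = coeff k (split e (X : Fin n → MvPolynomial (Fin n) ℂ) (A j))})
    (h0 : x ≠ 0) :
    ∃ (z : Fin q' → ℂ) (y u : Fin (t + 1) → ℂ), eval (pt n q' t c z y u) x ≠ 0 := by
  classical
  -- the variables of `x`
  have hxv : ∀ i ∈ x.vars, (∃ j, i ∈ (A j).vars) ∧ ∀ j', e j' ≠ i := by
    have h1 : Algebra.adjoin ℂ
        {a | ∃ j k, a = coeff k (split e (X : Fin n → MvPolynomial (Fin n) ℂ) (A j))} ≤
        supported ℂ {i : Fin n | (∃ j, i ∈ (A j).vars) ∧ ∀ j', e j' ≠ i} := by
      apply Algebra.adjoin_le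
      rintro _ ⟨j, k, rfl⟩
      change _ ∈ supported ℂ _
      rw [mem_supported]
      intro i hi
      obtain ⟨h2, h3⟩ := coef_vars he (A j) k i (Finset.mem_coe.1 hi)
      exact ⟨⟨j, h2⟩, h3⟩
    have h2 := mem_supported.1 (h1 hx)
    exact fun i hi => h2 (Finset.mem_coe.2 hi)
  refine KAL.hybrid x h0 c fun b => ?_
  set B := part x c b with hB
  have hBx : ∀ i ∈ B, i ∈ x.vars := fun i hi => (Finset.mem_filter.1 hi).1
  have hBb : B ⊆ univ.filter (fun i => blk c i = b) := fun i hi =>
    Finset.mem_filter.2 ⟨Finset.mem_univ i, (Finset.mem_filter.1 hi).2⟩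
  rcases hc b with hc | hc
  · exact Or.inl ((Finset.card_le_card hBb).trans hc)
  refine Or.inr ?_
  have hBm : ∑ i ∈ B, ω i ≤ m := (Finset.sum_le_sum_of_subset hBb).trans hc
  set W : Finset (Fin n) := B ∪ univ.image e with hW
  have hWm : ∑ i ∈ W, ω i ≤ (r + 1) * m := by
    have h1 : ∑ i ∈ W, ω i ≤ ∑ i ∈ B, ω i + ∑ i ∈ univ.image e, ω i := by
      have := Finset.sum_union_inter (s₁ := B) (s₂ := univ.image e) (f := ω)
      rw [hW]
      omega
    have h2 : ∑ i ∈ univ.image e, ω i = ∑ j, ω (e j) :=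
      Finset.sum_image fun a _ b _ h => he h
    have h3 : ∑ j, ω (e j) ≤ r' * m := by
      refine (Finset.sum_le_card_nsmul _ _ m fun j _ => hω j).trans ?_
      rw [Finset.card_univ, Fintype.card_fin, smul_eq_mul]
    have h4 : r' * m ≤ r * m := Nat.mul_le_mul_right _ hr
    rw [add_mul, one_mul]
    omega
  have hL : ∀ j, ∃ ρ, KB ((A j).vars ∩ W) ρ (A j) ∧ ρ + ((A j).vars ∩ W).card ≤ q := fun j =>
    hA j _ Finset.inter_subset_left
      ((Finset.sum_le_sum_of_subset Finset.inter_subset_right).trans hWm)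
  choose ρ hρ hρq using hL
  choose M c' hd hmem hind using fun j => kb_enlarge (hρ j)
  let E := Fintype.equivFin (Σ j, Fin (M j))
  let cc : Fin (Fintype.card (Σ j, Fin (M j))) → MvPolynomial (Fin n) ℂ := fun k =>
    c' (E.symm k).1 (E.symm k).2
  have hcc : ∀ j, Set.range (c' j) ⊆ Set.range cc := by
    rintro j _ ⟨k, rfl⟩
    exact ⟨E ⟨j, k⟩, congrArg (fun p : Σ j, Fin (M j) => c' p.1 p.2)
      (E.symm_apply_apply ⟨j, k⟩)⟩
  refine ⟨∑ j, ρ j, ⟨_, cc, ?_, ?_, ?_⟩, ?_⟩
  · intro k
    exact (hd _ _).mono_right Finset.subset_union_left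
  · have h1 : Algebra.adjoin ℂ
        {a | ∃ j k, a = coeff k (split e (X : Fin n → MvPolynomial (Fin n) ℂ) (A j))} ≤
        Algebra.adjoin ℂ ((fun i => X i) '' (B : Set (Fin n)) ∪ Set.range cc) := by
      apply Algebra.adjoin_le
      rintro _ ⟨j, k, rfl⟩
      have h2 := coef_mem he ((fun i => X i) '' (B : Set (Fin n)) ∪ Set.range (c' j)) ?_ (A j) ?_ k
      · exact Algebra.adjoin_mono (Set.union_subset_union_right _ (hcc j)) h2
      · rintro s (⟨i, hi, rfl⟩ | ⟨k', rfl⟩) j' hj'
        · have h3 : e j' = i := by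
            have h4 : e j' ∈ (X i : MvPolynomial (Fin n) ℂ).vars := hj'
            rw [vars_X, Finset.mem_singleton] at h4
            exact h4
          exact (hxv i (hBx i (Finset.mem_coe.1 hi))).2 j' h3
        · have h3 : e j' ∈ W := Finset.mem_union_right _
            (Finset.mem_image_of_mem e (Finset.mem_univ j'))
          exact Finset.disjoint_left.1 (hd j k') hj' h3
      · refine Algebra.adjoin_mono ?_ (hmem j)
        rintro s (⟨i, hi, rfl⟩ | hs)
        · rcases Finset.mem_union.1 (Finset.mem_inter.1 (Finset.mem_coe.1 hi)).2 with h3 | h3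
          · exact Or.inr (Or.inl ⟨i, Finset.mem_coe.2 h3, rfl⟩)
          · obtain ⟨j', _, rfl⟩ := Finset.mem_image.1 h3
            exact Or.inl ⟨j', rfl⟩
        · exact Or.inr (Or.inr hs)
    exact h1 hx
  · intro s hs
    -- pigeonhole
    obtain ⟨j, hj⟩ : ∃ j, ρ j < (univ.filter fun i => (E.symm (s i)).1 = j).card := by
      by_contra hcon
      push Not at hcon
      have h1 : ∑ j, (univ.filter fun i => (E.symm (s i)).1 = j).card = ∑ j, ρ j + 1 := by
        have h3 := Finset.card_eq_sum_card_fiberwise (f := fun i => (E.symm (s i)).1)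
          (s := (univ : Finset (Fin (∑ j, ρ j + 1)))) (t := (univ : Finset J))
          (fun i _ => Finset.mem_coe.2 (Finset.mem_univ _))
        rw [← h3, Finset.card_univ, Fintype.card_fin]
      have h2 := Finset.sum_le_sum (s := (univ : Finset J)) fun j _ => hcon j
      omega
    have hcard : Fintype.card (Fin (ρ j + 1)) ≤
        Fintype.card (univ.filter fun i => (E.symm (s i)).1 = j) := by
      rw [Fintype.card_fin, Fintype.card_coe]
      exact hj
    obtain ⟨μ⟩ := Function.Embedding.nonempty_of_card_le hcard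
    have hcast : ∀ (p : Σ j, Fin (M j)) (j : J), p.1 = j → ∃ k : Fin (M j),
        c' j k = c' p.1 p.2 := by
      rintro p _ rfl
      exact ⟨p.2, rfl⟩
    have hex : ∀ a : Fin (ρ j + 1), ∃ k : Fin (M j), c' j k = cc (s (μ a).1) := fun a =>
      hcast (E.symm (s (μ a).1)) j (Finset.mem_filter.1 (μ a).2).2
    choose s2 hs2 using hex
    apply hind j s2
    have h3 : (fun i => c' j (s2 i)) = (fun i => cc (s i)) ∘ fun a => (μ a).1 := by
      funext a
      exact hs2 a
    rw [h3]
    exact hs.comp _ fun a b hab => μ.injective (Subtype.ext hab)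
  · have h1 : B.card ≤ ∑ j, ((A j).vars ∩ W).card := by
      refine (Finset.card_le_card (t := univ.biUnion fun j => (A j).vars ∩ W) ?_).trans
        Finset.card_biUnion_le
      intro i hi
      obtain ⟨j, hj⟩ := (hxv i (hBx i hi)).1
      exact Finset.mem_biUnion.2 ⟨j, Finset.mem_univ j,
        Finset.mem_inter.2 ⟨hj, Finset.mem_union_left _ hi⟩⟩
    have h2 : ∑ j, (ρ j + ((A j).vars ∩ W).card) ≤ Fintype.card J * q := by
      refine (Finset.sum_le_card_nsmul _ _ q fun j _ => hρq j).trans ?_
      rw [Finset.card_univ, smul_eq_mul]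
    rw [Finset.sum_add_distrib] at h2
    omega

end Pool.Agent.Helper16.KX
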