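import Pool.Agent.Helper16.KAL.Defs
import Pool.Agent.Helper62.VT.Family

set_option autoImplicit false
set_option linter.unusedSectionVars false

/-!
# Project KX (MP_c2aa42_lc): sums of products of light polynomials. Definitions.
-/

namespace Pool.Agent.Helper16.KX

open MvPolynomial Finset
open Pool.Agent.Helper16.KAL (KB blk pt)

/-- The generator: `x_i = u_b + ∑ j < q, z_j * ((i + 1) * y_b) ^ (j + 1) + ∑ j < r, v_j * ∏ l ≠ i, (w_j - l)`,
where `b` is the block of `i`. -/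
def point (n q t r : ℕ) {R : Type*} [CommRing R] (c : Fin t → Fin (n + 1)) (z : Fin q → R)
    (y u : Fin (t + 1) → R) (v w : Fin r → R) (i : Fin n) : R :=
  u (blk c i) + ∑ j : Fin q, z j * (((i : ℕ) + 1 : ℕ) * y (blk c i)) ^ ((j : ℕ) + 1) +
    ∑ j : Fin r, v j * ∏ l ∈ univ.erase i, (w j - ((l : ℕ) : R))

/-- The hitting set. -/
def hit (n q t r d : ℕ) : Finset (Fin n → ℤ) :=
  (univ : Finset ((Fin t → Fin (n + 1)) × (Fin q → Fin (d + 1)) ×
    (Fin (t + 1) → Fin (d * q + 1)) × (Fin (t + 1) → Fin (d + 1)) × (Fin r → Fin (d + 1)) ×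
    (Fin r → Fin (d * n + 1)))).image
    (fun p => point n q t r p.1 (fun j => (((p.2.1 j : Fin (d + 1)) : ℕ) : ℤ))
      (fun b => (((p.2.2.1 b : Fin (d * q + 1)) : ℕ) : ℤ))
      (fun b => (((p.2.2.2.1 b : Fin (d + 1)) : ℕ) : ℤ))
      (fun j => (((p.2.2.2.2.1 j : Fin (d + 1)) : ℕ) : ℤ))
      (fun j => (((p.2.2.2.2.2 j : Fin (d * n + 1)) : ℕ) : ℤ)))

/-- `A` has a Kalorkoti bound for every set `U` of its variables of weight at most `τ`, the bound
plus the number of elements of `U` being at most `q`. -/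
def Light (n : ℕ) (ω : Fin n → ℕ) (τ q : ℕ) : Set (MvPolynomial (Fin n) ℂ) :=
  {A | ∀ U ⊆ A.vars, ∑ i ∈ U, ω i ≤ τ → ∃ ρ, KB U ρ A ∧ ρ + U.card ≤ q}

/-- Arbitrary polynomials in `κ` elements of `L`. -/
def Factors (n κ : ℕ) (L : Set (MvPolynomial (Fin n) ℂ)) : Set (MvPolynomial (Fin n) ℂ) :=
  {f | ∃ (A : Fin κ → MvPolynomial (Fin n) ℂ) (F : MvPolynomial (Fin κ) ℂ),
    (∀ j, A j ∈ L) ∧ f = aeval A F}

/-- Finite products of factors. -/
noncomputable def Products (n κ : ℕ) (L : Set (MvPolynomial (Fin n) ℂ)) : Submonoid (MvPolynomial (Fin n) ℂ) :=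
  Submonoid.closure (Factors n κ L)

/-- Polynomials in products of factors, no `r + 1` of the products being algebraically
independent (no condition if there are at most `r` products). -/
def Circuits (n r κ : ℕ) (L : Set (MvPolynomial (Fin n) ℂ)) : Set (MvPolynomial (Fin n) ℂ) :=
  {f | ∃ (m : ℕ) (P : Fin m → MvPolynomial (Fin n) ℂ) (g : MvPolynomial (Fin m) ℂ),
    (∀ i, P i ∈ Products n κ L) ∧
    (∀ s : Fin (r + 1) → Fin m, ¬ AlgebraicIndependent ℂ fun i => P (s i)) ∧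
    f = aeval P g}

/-- Constants `a i` for the variables of `H`. -/
noncomputable def fixH {n : ℕ} (H : Finset (Fin n)) (a : Fin n → ℂ) :
    MvPolynomial (Fin n) ℂ →ₐ[ℂ] MvPolynomial (Fin n) ℂ :=
  aeval (fun i => if i ∈ H then C (a i) else X i)

end Pool.Agent.Helper16.KX
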