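import Pool.Agent.Helper16.KX.Defs
import Pool.Agent.Helper16.KAL.Hit

set_option autoImplicit false
set_option linter.unusedSectionVars false

/-!
# KX-4: the explicit hitting set

As `Helper16.KAL.Hit` (same proofs), with the additional term `∑ j < r, v_j * ∏ l ≠ i, (w_j - l)`, which
is `Helper28.D4.G n r v w i` (see `Helper28.D4.degreeOf_G`, `map_G`, and `Helper62.VT.G_bound` for the bound of
the coordinates). `hit_hits`: for fixed cuts `c` the index type of the parameters is
`Fin q ⊕ (Fin (t+1) ⊕ (Fin (t+1) ⊕ (Fin r ⊕ Fin r)))`; the degree of the coordinates is at most `1` in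
`z_j`, `u_b`, `v_j`, at most `q` in `y_b`, and at most `n` in `w_j`. A coordinate: `0 ≤ z_j, u_b, v_j ≤ d`,
`0 ≤ y_b ≤ d q`, `0 ≤ w_j ≤ d n`, so `|w_j - l| ≤ d n + n`, a product of `n - 1` such factors is at most
`(d n + n) ^ n` (here `1 ≤ n ≤ d n + n` as there is an `i : Fin n`).
-/

namespace Pool.Agent.Helper16.KX

open MvPolynomial Finset
open Pool.Agent.Helper16.KAL (KB blk pt)

variable {n : ℕ}

theorem point_eq (n q t r : ℕ) {R : Type*} [CommRing R] (c : Fin t → Fin (n + 1)) (z : Fin q → R)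
    (y u : Fin (t + 1) → R) (v w : Fin r → R) (i : Fin n) :
    point n q t r c z y u v w i = pt n q t c z y u i + Pool.Agent.Helper28.D4.G n r v w i := rfl

theorem hit_card (n q t r d : ℕ) : (hit n q t r d).card ≤
    (n + 1) ^ t * (d + 1) ^ q * ((d * q + 1) * (d + 1)) ^ (t + 1) *
      ((d + 1) * (d * n + 1)) ^ r := by
  unfold hit
  refine Finset.card_image_le.trans (le_of_eq ?_)
  rw [Finset.card_univ, Fintype.card_prod, Fintype.card_prod, Fintype.card_prod,
    Fintype.card_prod, Fintype.card_prod]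
  simp only [Fintype.card_fun, Fintype.card_fin]
  rw [mul_pow, mul_pow]
  ring

theorem hit_bound (n q t r d : ℕ) : ∀ a ∈ hit n q t r d, ∀ i,
    |a i| ≤ d + q * d * (n * d * q) ^ q + r * d * (d * n + n) ^ n := by
  intro a ha i
  unfold hit at ha
  rw [Finset.mem_image] at ha
  obtain ⟨⟨c, z, y, u, v, w⟩, _, rfl⟩ := ha
  have h1 := (Helper16.KAL.hit_bound n q t d
    (pt n q t c (fun j => (((z j : Fin (d + 1)) : ℕ) : ℤ))
      (fun b => (((y b : Fin (d * q + 1)) : ℕ) : ℤ))
      (fun b => (((u b : Fin (d + 1)) : ℕ) : ℤ)))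
    (Finset.mem_image.2 ⟨(c, z, y, u), Finset.mem_univ _, rfl⟩)) i
  change |pt n q t c (fun j => (((z j : Fin (d + 1)) : ℕ) : ℤ))
      (fun b => (((y b : Fin (d * q + 1)) : ℕ) : ℤ))
      (fun b => (((u b : Fin (d + 1)) : ℕ) : ℤ)) i +
      ∑ j : Fin r, (((v j : Fin (d + 1)) : ℕ) : ℤ) *
        ∏ l ∈ univ.erase i, ((((w j : Fin (d * n + 1)) : ℕ) : ℤ) - ((l : ℕ) : ℤ))| ≤ _
  refine (abs_add_le _ _).trans (add_le_add ?_ ?_)
  · rw [abs_of_nonneg h1.1]
    exact h1.2
  · have hn : 1 ≤ n := i.pos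
    have hn' : (1 : ℤ) ≤ n := by exact_mod_cast hn
    refine (Finset.abs_sum_le_sum_abs _ _).trans ?_
    have hterm : ∀ j ∈ (Finset.univ : Finset (Fin r)), |(((v j : Fin (d + 1)) : ℕ) : ℤ) *
        ∏ l ∈ univ.erase i, ((((w j : Fin (d * n + 1)) : ℕ) : ℤ) - ((l : ℕ) : ℤ))| ≤
        (d : ℤ) * (d * n + n) ^ n := by
      intro j _
      have hv : (((v j : Fin (d + 1)) : ℕ) : ℤ) ≤ d := by
        exact_mod_cast Nat.lt_succ_iff.1 (v j).2
      have hv0 : (0 : ℤ) ≤ (((v j : Fin (d + 1)) : ℕ) : ℤ) := by positivity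
      rw [abs_mul, abs_of_nonneg hv0]
      refine mul_le_mul hv ?_ (abs_nonneg _) (by positivity)
      rw [Finset.abs_prod]
      refine (Finset.prod_le_prod (fun _ _ => abs_nonneg _)
        (g := fun _ => (d : ℤ) * n + n) ?_).trans ?_
      · intro l _
        have hw : (((w j : Fin (d * n + 1)) : ℕ) : ℤ) ≤ d * n := by
          exact_mod_cast Nat.lt_succ_iff.1 (w j).2
        have hw0 : (0 : ℤ) ≤ (((w j : Fin (d * n + 1)) : ℕ) : ℤ) := by positivity
        have hl : ((l : ℕ) : ℤ) ≤ n := by exact_mod_cast l.2.le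
        have hl0 : (0 : ℤ) ≤ ((l : ℕ) : ℤ) := by positivity
        have hdn : (0 : ℤ) ≤ (d : ℤ) * n := by positivity
        rw [abs_le]
        constructor <;> linarith
      · rw [Finset.prod_const]
        refine pow_le_pow_right₀ ?_ ?_
        · have hdn : (0 : ℤ) ≤ (d : ℤ) * n := by positivity
          linarith
        · refine (Finset.card_le_univ _).trans ?_
          rw [Fintype.card_fin]
    refine (Finset.sum_le_card_nsmul _ _ _ hterm).trans (le_of_eq ?_)
    rw [Finset.card_univ, Fintype.card_fin, nsmul_eq_mul]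
    ring

theorem map_point {q t r : ℕ} {R S : Type*} [CommRing R] [CommRing S] (φ : R →+* S)
    (c : Fin t → Fin (n + 1)) (z : Fin q → R) (y u : Fin (t + 1) → R) (v w : Fin r → R)
    (i : Fin n) :
    φ (point n q t r c z y u v w i) =
      point n q t r c (fun j => φ (z j)) (fun b => φ (y b)) (fun b => φ (u b))
        (fun j => φ (v j)) (fun j => φ (w j)) i := by
  rw [point_eq, point_eq, map_add, Helper16.KAL.map_pt, Helper28.D4.map_G]

private lemma k55_degX {σ : Type*} {v w : σ} (h : w ≠ v) :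
    degreeOf v (X w : MvPolynomial σ ℂ) = 0 := by
  classical
  rw [degreeOf_X, if_neg]
  exact fun h' => h h'.symm

private lemma k55_deg_term {σ : Type*} (v a b : σ) (m j A B : ℕ)
    (ha : degreeOf v (X a : MvPolynomial σ ℂ) ≤ A)
    (hb : degreeOf v (X b : MvPolynomial σ ℂ) ≤ B) :
    degreeOf v ((X a : MvPolynomial σ ℂ) * ((m : MvPolynomial σ ℂ) * X b) ^ j) ≤ A + j * B := by
  refine (degreeOf_mul_le v _ _).trans (Nat.add_le_add ha ?_)
  refine (degreeOf_pow_le v _ _).trans (Nat.mul_le_mul_left _ ?_)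
  refine (degreeOf_mul_le v _ _).trans ?_
  have h1 : (m : MvPolynomial σ ℂ) = C (m : ℂ) := by simp
  rw [h1, degreeOf_C, zero_add]
  exact hb

private lemma k55_deg_G {σ : Type*} (n r : ℕ) (z w : Fin r → σ) (v : σ) (A B : ℕ)
    (hA : ∀ j, degreeOf v (X (z j) : MvPolynomial σ ℂ) ≤ A)
    (hB : ∀ j, degreeOf v (X (w j) : MvPolynomial σ ℂ) ≤ B) (i : Fin n) :
    degreeOf v (Helper28.D4.G n r (fun j => (X (z j) : MvPolynomial σ ℂ))
      (fun j => X (w j)) i) ≤ A + n * B := by
  unfold Helper28.D4.G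
  refine (degreeOf_sum_le v _ _).trans ?_
  apply Finset.sup_le
  intro j _
  refine (degreeOf_mul_le v _ _).trans (Nat.add_le_add (hA j) ?_)
  refine (degreeOf_prod_le v _ _).trans ?_
  calc ∑ i' ∈ Finset.univ.erase i, degreeOf v (X (w j) - (((i' : ℕ) : MvPolynomial σ ℂ)))
      ≤ ∑ _i' ∈ (Finset.univ : Finset (Fin n)).erase i, B := by
        apply Finset.sum_le_sum
        intro i' _
        have h1 : (((i' : ℕ) : MvPolynomial σ ℂ)) = C ((i' : ℕ) : ℂ) := by simp
        refine (degreeOf_sub_le v _ _).trans ?_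
        rw [h1, degreeOf_C]
        exact max_le (hB j) (Nat.zero_le _)
    _ ≤ n * B := by
        rw [Finset.sum_const, smul_eq_mul]
        refine Nat.mul_le_mul_right _ ((Finset.card_le_univ _).trans ?_)
        rw [Fintype.card_fin]

theorem hit_hits {q t r d : ℕ} (f : MvPolynomial (Fin n) ℂ) (hd : f.totalDegree ≤ d)
    (c : Fin t → Fin (n + 1))
    (h : ∃ (z : Fin q → ℂ) (y u : Fin (t + 1) → ℂ) (v w : Fin r → ℂ),
      eval (point n q t r c z y u v w) f ≠ 0) :
    ∃ a ∈ hit n q t r d, eval (fun i => ((a i : ℤ) : ℂ)) f ≠ 0 := by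
  classical
  obtain ⟨z, y, u, v, w, hzyu⟩ := h
  let σ := Fin q ⊕ (Fin (t + 1) ⊕ (Fin (t + 1) ⊕ (Fin r ⊕ Fin r)))
  let iz : Fin q → σ := fun j => Sum.inl j
  let iy : Fin (t + 1) → σ := fun j => Sum.inr (Sum.inl j)
  let iu : Fin (t + 1) → σ := fun j => Sum.inr (Sum.inr (Sum.inl j))
  let iv : Fin r → σ := fun j => Sum.inr (Sum.inr (Sum.inr (Sum.inl j)))
  let iw : Fin r → σ := fun j => Sum.inr (Sum.inr (Sum.inr (Sum.inr j)))
  let φ : Fin n → MvPolynomial σ ℂ := point n q t r c (fun j => X (iz j))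
    (fun b => X (iy b)) (fun b => X (iu b)) (fun j => X (iv j)) (fun j => X (iw j))
  have hev : ∀ x : σ → ℂ, MvPolynomial.eval x (aeval φ f) =
      MvPolynomial.eval (point n q t r c (fun j => x (iz j)) (fun b => x (iy b))
        (fun b => x (iu b)) (fun j => x (iv j)) (fun j => x (iw j))) f := by
    intro x
    rw [Helper28.D4.eval_aeval_comp]
    congr 2
    funext i
    change MvPolynomial.eval x (point n q t r c _ _ _ _ _ i) = _
    rw [map_point]
    simp only [eval_X]
  have hF0 : aeval φ f ≠ 0 := by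
    intro hcon
    apply hzyu
    have h1 := hev (Sum.elim z (Sum.elim y (Sum.elim u (Sum.elim v w))))
    rw [hcon, map_zero] at h1
    rw [← h1.symm]
    congr 1
  -- degrees of the coordinates
  have hdeg : ∀ (x : σ) (A B U V W : ℕ), (∀ j, degreeOf x (X (iz j) : MvPolynomial σ ℂ) ≤ A) →
      (∀ b, degreeOf x (X (iy b) : MvPolynomial σ ℂ) ≤ B) →
      (∀ b, degreeOf x (X (iu b) : MvPolynomial σ ℂ) ≤ U) →
      (∀ j, degreeOf x (X (iv j) : MvPolynomial σ ℂ) ≤ V) →
      (∀ j, degreeOf x (X (iw j) : MvPolynomial σ ℂ) ≤ W) →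
      ∀ i, degreeOf x (φ i) ≤ max (max U (A + q * B)) (V + n * W) := by
    intro x A B U V W hA hB hU hV hW i
    change degreeOf x (((X (iu (blk c i))) : MvPolynomial σ ℂ) +
      ∑ j : Fin q, (X (iz j) : MvPolynomial σ ℂ) *
        (((((i : ℕ) + 1 : ℕ) : MvPolynomial σ ℂ)) * X (iy (blk c i))) ^
          ((j : ℕ) + 1) + Helper28.D4.G n r (fun j => (X (iv j) : MvPolynomial σ ℂ))
            (fun j => X (iw j)) i) ≤ _
    refine (degreeOf_add_le x _ _).trans (max_le_max ?_ (k55_deg_G n r iv iw x V W hV hW i))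
    refine (degreeOf_add_le x _ _).trans (max_le_max (hU _) ?_)
    refine (degreeOf_sum_le x _ _).trans ?_
    apply Finset.sup_le
    intro j _
    refine (k55_deg_term x _ _ _ _ A B (hA j) (hB _)).trans ?_
    exact Nat.add_le_add_left (Nat.mul_le_mul_right _ j.2) _
  by_contra hcon
  push Not at hcon
  apply hF0
  let R : ℕ → Finset ℂ := fun N => (Finset.range N).image (fun k : ℕ => (k : ℂ))
  have hR : ∀ N, (R N).card = N := by
    intro N
    change ((Finset.range N).image (fun k : ℕ => (k : ℂ))).card = N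
    rw [Finset.card_image_of_injective _ Nat.cast_injective, Finset.card_range]
  have hRm : ∀ N x, x ∈ R (N + 1) → ∃ k : Fin (N + 1), (((k : Fin (N + 1)) : ℕ) : ℂ) = x := by
    intro N x hx
    obtain ⟨k, hk, hkx⟩ := Finset.mem_image.1 hx
    exact ⟨⟨k, Finset.mem_range.1 hk⟩, hkx⟩
  let S : σ → Finset ℂ := Sum.elim (fun _ => R (d + 1))
    (Sum.elim (fun _ => R (d * q + 1)) (Sum.elim (fun _ => R (d + 1))
      (Sum.elim (fun _ => R (d + 1)) (fun _ => R (d * n + 1)))))
  have hX0 : ∀ {a b : σ}, a ≠ b → degreeOf b (X a : MvPolynomial σ ℂ) ≤ 0 :=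
    fun h => (k55_degX h).le
  apply MvPolynomial.eq_zero_of_eval_zero_at_prod_finset (aeval φ f) S
  · intro x
    rcases x with j0 | b0 | b0 | j0 | j0
    · change degreeOf _ _ < (R (d + 1)).card
      rw [hR]
      have h1 := Helper28.D4.degreeOf_aeval_le φ (iz j0) 1 d (fun i => by
        refine (hdeg (iz j0) 1 0 0 0 0 (fun j => Helper28.D4.degreeOf_X_le _ _)
          (fun b => hX0 (by intro h; cases h)) (fun b => hX0 (by intro h; cases h))
          (fun b => hX0 (by intro h; cases h)) (fun b => hX0 (by intro h; cases h)) i).trans ?_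
        simp) f hd
      change degreeOf (iz j0) _ < _
      omega
    · change degreeOf _ _ < (R (d * q + 1)).card
      rw [hR]
      have h1 := Helper28.D4.degreeOf_aeval_le φ (iy b0) q d (fun i => by
        refine (hdeg (iy b0) 0 1 0 0 0 (fun j => hX0 (by intro h; cases h))
          (fun b => Helper28.D4.degreeOf_X_le _ _) (fun b => hX0 (by intro h; cases h))
          (fun b => hX0 (by intro h; cases h)) (fun b => hX0 (by intro h; cases h)) i).trans ?_
        simp) f hd
      change degreeOf (iy b0) _ < _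
      omega
    · change degreeOf _ _ < (R (d + 1)).card
      rw [hR]
      have h1 := Helper28.D4.degreeOf_aeval_le φ (iu b0) 1 d (fun i => by
        refine (hdeg (iu b0) 0 0 1 0 0 (fun j => hX0 (by intro h; cases h))
          (fun b => hX0 (by intro h; cases h)) (fun b => Helper28.D4.degreeOf_X_le _ _)
          (fun b => hX0 (by intro h; cases h)) (fun b => hX0 (by intro h; cases h)) i).trans ?_
        simp) f hd
      change degreeOf (iu b0) _ < _
      omega
    · change degreeOf _ _ < (R (d + 1)).card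
      rw [hR]
      have h1 := Helper28.D4.degreeOf_aeval_le φ (iv j0) 1 d (fun i => by
        refine (hdeg (iv j0) 0 0 0 1 0 (fun j => hX0 (by intro h; cases h))
          (fun b => hX0 (by intro h; cases h)) (fun b => hX0 (by intro h; cases h))
          (fun b => Helper28.D4.degreeOf_X_le _ _) (fun b => hX0 (by intro h; cases h)) i).trans ?_
        simp) f hd
      change degreeOf (iv j0) _ < _
      omega
    · change degreeOf _ _ < (R (d * n + 1)).card
      rw [hR]
      have h1 := Helper28.D4.degreeOf_aeval_le φ (iw j0) n d (fun i => by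
        refine (hdeg (iw j0) 0 0 0 0 1 (fun j => hX0 (by intro h; cases h))
          (fun b => hX0 (by intro h; cases h)) (fun b => hX0 (by intro h; cases h))
          (fun b => hX0 (by intro h; cases h)) (fun b => Helper28.D4.degreeOf_X_le _ _) i).trans ?_
        simp) f hd
      change degreeOf (iw j0) _ < _
      omega
  · intro x hx
    have h1 : ∀ j, ∃ k : Fin (d + 1), (((k : Fin (d + 1)) : ℕ) : ℂ) = x (iz j) :=
      fun j => hRm d _ (hx (iz j))
    have h2 : ∀ b, ∃ k : Fin (d * q + 1), (((k : Fin (d * q + 1)) : ℕ) : ℂ) =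
        x (iy b) := fun b => hRm (d * q) _ (hx (iy b))
    have h3 : ∀ b, ∃ k : Fin (d + 1), (((k : Fin (d + 1)) : ℕ) : ℂ) =
        x (iu b) := fun b => hRm d _ (hx (iu b))
    have h4 : ∀ j, ∃ k : Fin (d + 1), (((k : Fin (d + 1)) : ℕ) : ℂ) =
        x (iv j) := fun j => hRm d _ (hx (iv j))
    have h5 : ∀ j, ∃ k : Fin (d * n + 1), (((k : Fin (d * n + 1)) : ℕ) : ℂ) =
        x (iw j) := fun j => hRm (d * n) _ (hx (iw j))
    choose z1 hz1 using h1
    choose y1 hy1 using h2
    choose u1 hu1 using h3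
    choose v1 hv1 using h4
    choose w1 hw1 using h5
    rw [hev]
    have h6 := hcon (point n q t r c (fun j => (((z1 j : Fin (d + 1)) : ℕ) : ℤ))
      (fun b => (((y1 b : Fin (d * q + 1)) : ℕ) : ℤ))
      (fun b => (((u1 b : Fin (d + 1)) : ℕ) : ℤ))
      (fun j => (((v1 j : Fin (d + 1)) : ℕ) : ℤ))
      (fun j => (((w1 j : Fin (d * n + 1)) : ℕ) : ℤ)))
      (Finset.mem_image.2 ⟨(c, z1, y1, u1, v1, w1), Finset.mem_univ _, rfl⟩)
    rw [← h6]
    congr 2
    funext i
    have h7 := map_point (Int.castRingHom ℂ) c (fun j => (((z1 j : Fin (d + 1)) : ℕ) : ℤ))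
      (fun b => (((y1 b : Fin (d * q + 1)) : ℕ) : ℤ))
      (fun b => (((u1 b : Fin (d + 1)) : ℕ) : ℤ))
      (fun j => (((v1 j : Fin (d + 1)) : ℕ) : ℤ))
      (fun j => (((w1 j : Fin (d * n + 1)) : ℕ) : ℤ)) i
    simp only [eq_intCast, Int.cast_natCast] at h7
    rw [h7]
    simp only [hz1, hy1, hu1, hv1, hw1]

end Pool.Agent.Helper16.KX
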