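import Pool.Agent.Helper16.KX.Defs
import Pool.Agent.Helper16.KAL.Wt

set_option autoImplicit false
set_option linter.unusedSectionVars false

/-!
# KX-7: formulas, straight-line programs, programs of bounded width and determinants are light
-/

namespace Pool.Agent.Helper16.KX

open MvPolynomial Finset
open Pool.Agent.Helper16.KAL

variable {n : ℕ}

/-- Straight-line programs of formulas. -/
theorem slp_light {c τ q : ℕ} (R : Fin n → ℕ) (P : SLP n c)
    (h : Fin c → MvPolynomial (Fin n) ℂ) (hv : P.Vals h) (F : MvPolynomial (Fin c) ℂ)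
    (hR : ∀ i, P.reads i ≤ R i) (hq : 5 * τ + 4 * P.refs + c ≤ q) :
    aeval h F ∈ Light n R τ q := by
  intro U hU hw
  refine ⟨_, kb_slp P h hv F U, ?_⟩
  have h1 := card_le_sum U P.reads (fun i hi => slp_vars P h hv F i (hU hi))
  have h2 : ∑ i ∈ U, P.reads i ≤ ∑ i ∈ U, R i := sum_le_sum fun i _ => hR i
  omega

/-- Programs of width `w`. -/
theorem prog_light {w τ q : ℕ} (R : Fin n → ℕ)
    (L : List (Fin n × Matrix (Fin w) (Fin w) (Polynomial ℂ))) (a b : Fin w → ℂ)
    (hR : ∀ i, progReads L i ≤ R i) (hq : (w ^ 2 + 1) * τ + w ^ 2 ≤ q) :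
    progVal L a b ∈ Light n R τ q := by
  intro U hU hw
  refine ⟨_, kb_prog L a b U, ?_⟩
  have h1 := card_le_sum U (progReads L) (fun i hi => prog_vars L a b i (hU hi))
  have h2 : ∑ i ∈ U, progReads L i ≤ ∑ i ∈ U, R i := sum_le_sum fun i _ => hR i
  have h3 : (w ^ 2 + 1) * ∑ i ∈ U, progReads L i + w ^ 2 =
      w ^ 2 * (∑ i ∈ U, progReads L i + 1) + ∑ i ∈ U, progReads L i := by ring
  have h4 : (w ^ 2 + 1) * ∑ i ∈ U, progReads L i ≤ (w ^ 2 + 1) * τ :=
    Nat.mul_le_mul_left _ (h2.trans hw)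
  omega

/-- Determinants. -/
theorem det_light {N s τ q : ℕ} (R : Fin n → ℕ) (A : Matrix (Fin N) (Fin N) ℂ)
    (U : Matrix (Fin N) (Fin s) ℂ) (V : Matrix (Fin s) (Fin N) ℂ) (v : Fin s → Fin n)
    (p : Fin s → Polynomial ℂ) (hR : ∀ i, (univ.filter (fun k => v k = i)).card ≤ R i)
    (hq : (τ + 1) ^ 2 ≤ q) : detVal A U V v p ∈ Light n R τ q := by
  intro B hB hw
  refine ⟨_, kb_det A U V v p B, ?_⟩
  have h1 := card_le_sum B (fun i => (univ.filter (fun k => v k = i)).card)
    (fun i hi => det_vars A U V v p i (hB hi))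
  have h2 : (univ.filter (fun k => v k ∈ B)).card =
      ∑ i ∈ B, (univ.filter (fun k => v k = i)).card := by
    rw [card_eq_sum_card_fiberwise (f := v) (t := B)]
    · refine sum_congr rfl fun i hi => ?_
      congr 1
      ext k
      simp only [mem_filter, mem_univ, true_and]
      constructor
      · exact fun h => h.2
      · intro h
        exact ⟨h ▸ hi, h⟩
    · intro k hk
      simpa using hk
  rw [h2]
  have h3 : ∑ i ∈ B, (univ.filter (fun k => v k = i)).card ≤ τ :=
    (sum_le_sum fun i _ => hR i).trans hw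
  set x := ∑ i ∈ B, (univ.filter (fun k => v k = i)).card with hx
  have h4 : (x + 1) ^ 2 ≤ (τ + 1) ^ 2 := Nat.pow_le_pow_left (Nat.succ_le_succ h3) 2
  have h5 : (x + 1) ^ 2 = x ^ 2 + x + x + 1 := by ring
  omega

end Pool.Agent.Helper16.KX
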