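import Pool.Agent.Helper16.KX.Spec
import Pool.Agent.Helper16.KX.Hit

set_option autoImplicit false
set_option linter.unusedSectionVars false

/-!
# KX-5: from the split polynomial to a point

Compare `Helper62.VT.exists_cpt` (same proof up to `hy`). The hypothesis gives a coefficient
which is not `0`, values `π` of the parameters, and values `s j` of the variables `X j` with
`eval (fun l => if h : ∃ j, e j = l then s h.choose else pt n q t c z y u l) (fixH H a f) ≠ 0`, where `z y u`
are the three parts of `π`. By `eval_fixH` this is the value of `f` at the point `p` with `p l = a l` for `l ∈ H`, `s j`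
for `l = e j` not in `H`, and `pt n q t c z y u l` otherwise. Take `w j = e j` and
`v j = (s j - pt n q t c z y u (e j)) / ∏ l ≠ e j, (e j - l)` for `j < r'`, `v j = w j = 0` for `r' ≤ j < r` (`Fin.append` with
`r = r' + k`), so that `G n r v w l = s j - pt .. l` if `l = e j`, and `0` if `l` is not in the range of `e`. For
`i ∈ H` the block of `i` is `{i}`; change `u` at this block so that coordinate `i` becomes `a i`: put
`u' b = a i - (pt n q t c z y 0 i + G n r v w i)` for `b = blk c i`, `i ∈ H` (the choice of `i` is unique), `u' b = u b` for the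
other blocks.
-/

namespace Pool.Agent.Helper16.KX

open MvPolynomial Finset
open Pool.Agent.Helper16.KAL (KB blk pt)
open Pool.Agent.Helper62.VT (split)

variable {n : ℕ}

private theorem point_eval_pt (q t : ℕ) (c : Fin t → Fin (n + 1))
    (π : Fin q ⊕ (Fin (t + 1) ⊕ Fin (t + 1)) → ℂ) (l : Fin n) :
    eval π (pt n q t c (fun j => X (Sum.inl j)) (fun b => X (Sum.inr (Sum.inl b)))
      (fun b => X (Sum.inr (Sum.inr b))) l :
        MvPolynomial (Fin q ⊕ (Fin (t + 1) ⊕ Fin (t + 1))) ℂ) =
      pt n q t c (fun j => π (Sum.inl j)) (fun b => π (Sum.inr (Sum.inl b)))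
        (fun b => π (Sum.inr (Sum.inr b))) l := by
  simp [pt, map_sum, map_mul, map_pow]

theorem exists_point_of_split {q t r r' : ℕ} (c : Fin t → Fin (n + 1)) (H : Finset (Fin n))
    (hH : ∀ i ∈ H, ∀ j, blk c j = blk c i → j = i) (a : Fin n → ℂ) (hr : r' ≤ r)
    {e : Fin r' → Fin n} (he : Function.Injective e) (f : MvPolynomial (Fin n) ℂ)
    (h : split e (fun l => (pt n q t c (fun j => X (Sum.inl j)) (fun b => X (Sum.inr (Sum.inl b)))
      (fun b => X (Sum.inr (Sum.inr b))) l :
        MvPolynomial (Fin q ⊕ (Fin (t + 1) ⊕ Fin (t + 1))) ℂ)) (fixH H a f) ≠ 0) :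
    ∃ (z : Fin q → ℂ) (y u : Fin (t + 1) → ℂ) (v w : Fin r → ℂ),
      eval (point n q t r c z y u v w) f ≠ 0 := by
  classical
  set ψ : Fin n → MvPolynomial (Fin q ⊕ (Fin (t + 1) ⊕ Fin (t + 1))) ℂ := fun l =>
    pt n q t c (fun j => X (Sum.inl j)) (fun b => X (Sum.inr (Sum.inl b)))
      (fun b => X (Sum.inr (Sum.inr b))) l with hψ
  obtain ⟨k0, rfl⟩ := Nat.exists_eq_add_of_le hr
  set g := fixH H a f with hg
  obtain ⟨k, hk⟩ : ∃ k, (split e ψ g).coeff k ≠ 0 := by
    by_contra hcon
    push Not at hcon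
    exact h (MvPolynomial.ext _ _ fun k => by rw [hcon k, coeff_zero])
  obtain ⟨π, hπ⟩ := Pool.Agent.Helper28.D4.exists_eval_ne_zero _ hk
  have h1 : map (eval π) (split e ψ g) ≠ 0 := by
    intro h0
    apply hπ
    have := congrArg (coeff k) h0
    rwa [coeff_map, coeff_zero] at this
  obtain ⟨s, hs⟩ := Pool.Agent.Helper28.D4.exists_eval_ne_zero _ h1
  set z : Fin q → ℂ := fun j => π (Sum.inl j) with hz
  set y : Fin (t + 1) → ℂ := fun b => π (Sum.inr (Sum.inl b)) with hy
  set u : Fin (t + 1) → ℂ := fun b => π (Sum.inr (Sum.inr b)) with hu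
  have h2 : ∀ p : MvPolynomial (Fin n) ℂ,
      eval s (map (eval π) (split e ψ p)) =
      eval (fun l => if h : ∃ j, e j = l then s h.choose else pt n q t c z y u l) p := by
    intro p
    have h3 : ((eval s).comp (map (eval π))).comp
        (split e ψ : MvPolynomial (Fin n) ℂ →+* _) =
        eval (fun l => if h : ∃ j, e j = l then s h.choose else pt n q t c z y u l) := by
      apply MvPolynomial.ringHom_ext
      · intro a
        change eval s (map (eval π) (split e ψ (C a))) = _
        rw [← MvPolynomial.algebraMap_eq, AlgHom.commutes,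
          IsScalarTower.algebraMap_apply ℂ (MvPolynomial (Fin q ⊕ (Fin (t + 1) ⊕ Fin (t + 1))) ℂ)
            (MvPolynomial (Fin r')
              (MvPolynomial (Fin q ⊕ (Fin (t + 1) ⊕ Fin (t + 1))) ℂ)),
          MvPolynomial.algebraMap_eq, MvPolynomial.algebraMap_eq, MvPolynomial.algebraMap_eq,
          map_C, eval_C, eval_C, eval_C]
      · intro l
        change eval s (map (eval π) (split e ψ (X l))) = _
        rw [eval_X]
        by_cases hl : ∃ j, e j = l
        · rw [dif_pos hl, split, aeval_X, dif_pos hl, map_X, eval_X]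
        · rw [dif_neg hl, split, aeval_X, dif_neg hl, map_C, eval_C]
          exact point_eval_pt q t c π l
    exact RingHom.congr_fun h3 p
  rw [h2, hg, eval_fixH] at hs
  -- the parameters
  let ζ : Fin r' → ℂ := fun j => (s j - pt n q t c z y u (e j)) /
    ∏ i' ∈ Finset.univ.erase (e j), (((e j : ℕ) : ℂ) - ((i' : ℕ) : ℂ))
  let v : Fin (r' + k0) → ℂ := Fin.append ζ (fun _ => 0)
  let w : Fin (r' + k0) → ℂ := Fin.append (fun j => ((e j : ℕ) : ℂ)) (fun _ => 0)
  have hG : ∀ l, Pool.Agent.Helper28.D4.G n (r' + k0) v w l =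
      ∑ j, ζ j * ∏ i' ∈ Finset.univ.erase l, (((e j : ℕ) : ℂ) - ((i' : ℕ) : ℂ)) := by
    intro l
    rw [Pool.Agent.Helper28.D4.G, Fin.sum_univ_add]
    simp only [v, w, Fin.append_left, Fin.append_right, zero_mul, Finset.sum_const_zero, add_zero]
  have hzero : ∀ l j, e j ≠ l →
      ∏ i' ∈ Finset.univ.erase l, (((e j : ℕ) : ℂ) - ((i' : ℕ) : ℂ)) = 0 := by
    intro l j hj
    apply Finset.prod_eq_zero (Finset.mem_erase.2 ⟨hj, Finset.mem_univ (e j)⟩)
    exact sub_self _
  have hGe : ∀ j, Pool.Agent.Helper28.D4.G n (r' + k0) v w (e j) =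
      s j - pt n q t c z y u (e j) := by
    intro j
    rw [hG, Finset.sum_eq_single j]
    · apply div_mul_cancel₀
      rw [Finset.prod_ne_zero_iff]
      intro i' hi'
      rw [sub_ne_zero]
      intro h5
      exact (Finset.mem_erase.1 hi').1 (Fin.ext (by exact_mod_cast h5.symm))
    · intro j' _ hj'
      rw [hzero _ j' (fun h5 => hj' (he h5)), mul_zero]
    · intro h5
      exact absurd (Finset.mem_univ j) h5
  have hGn : ∀ l, (∀ j, e j ≠ l) → Pool.Agent.Helper28.D4.G n (r' + k0) v w l = 0 := by
    intro l hl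
    rw [hG]
    exact Finset.sum_eq_zero fun j _ => by rw [hzero l j (hl j), mul_zero]
  let u' : Fin (t + 1) → ℂ := fun b => if h : ∃ i, i ∈ H ∧ blk c i = b then
    a h.choose - (pt n q t c z y 0 h.choose +
      Pool.Agent.Helper28.D4.G n (r' + k0) v w h.choose) else u b
  have hpt : ∀ (x : Fin (t + 1) → ℂ) (l : Fin n),
      pt n q t c z y x l = x (blk c l) + pt n q t c z y 0 l := by
    intro x l
    simp only [pt, Pi.zero_apply, zero_add]
  refine ⟨z, y, u', v, w, ?_⟩
  have hfun : (point n q t (r' + k0) c z y u' v w) = fun i => if i ∈ H then a i else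
      (if h : ∃ j, e j = i then s h.choose else pt n q t c z y u i) := by
    funext l
    rw [point_eq]
    by_cases hl : l ∈ H
    · rw [if_pos hl, hpt]
      have hex : ∃ i, i ∈ H ∧ blk c i = blk c l := ⟨l, hl, rfl⟩
      have hch : hex.choose = l := (hH _ hex.choose_spec.1 l hex.choose_spec.2.symm).symm
      have hu' : u' (blk c l) = a l - (pt n q t c z y 0 l +
          Pool.Agent.Helper28.D4.G n (r' + k0) v w l) := by
        simp only [u']
        rw [dif_pos hex, hch]
      rw [hu']
      ring
    · rw [if_neg hl]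
      have hex : ¬ ∃ i, i ∈ H ∧ blk c i = blk c l := by
        rintro ⟨i, hi, hb⟩
        apply hl
        rw [hH i hi l hb.symm]
        exact hi
      have hu' : u' (blk c l) = u (blk c l) := by
        simp only [u']
        rw [dif_neg hex]
      rw [hpt, hu', ← hpt]
      by_cases hle : ∃ j, e j = l
      · obtain ⟨j, rfl⟩ := hle
        have hex' : ∃ j', e j' = e j := ⟨j, rfl⟩
        rw [dif_pos hex', hGe, he hex'.choose_spec]
        ring
      · rw [dif_neg hle, hGn l (fun j hj => hle ⟨j, hj⟩), add_zero]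
  rw [hfun]
  exact hs

end Pool.Agent.Helper16.KX
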