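import Pool.Agent.Helper16.KX.Core
import Pool.Agent.Helper16.KX.Point
import Pool.Agent.Helper16.KAL.Cut

set_option autoImplicit false
set_option linter.unusedSectionVars false

/-!
# KX-6: the main theorem
-/

namespace Pool.Agent.Helper16.KX

open MvPolynomial Finset
open Pool.Agent.Helper16.KAL (KB blk pt exists_cuts)
open Pool.Agent.Helper62.VT (split)

variable {n : ℕ}

/-- The map to the ring of the parameters. -/
noncomputable def spec (n q t : ℕ) (c : Fin t → Fin (n + 1)) :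
    MvPolynomial (Fin n) ℂ →ₐ[ℂ] MvPolynomial (Fin q ⊕ (Fin (t + 1) ⊕ Fin (t + 1))) ℂ :=
  aeval fun l => pt n q t c (fun j => X (Sum.inl j)) (fun b => X (Sum.inr (Sum.inl b)))
      (fun b => X (Sum.inr (Sum.inr b))) l

theorem spec_ne_zero {q t : ℕ} (c : Fin t → Fin (n + 1)) (x : MvPolynomial (Fin n) ℂ)
    (h : ∃ (z : Fin q → ℂ) (y u : Fin (t + 1) → ℂ), eval (pt n q t c z y u) x ≠ 0) :
    spec n q t c x ≠ 0 := by
  obtain ⟨z, y, u, h⟩ := h
  intro h0
  apply h
  have h1 := congrArg (eval (Sum.elim z (Sum.elim y u))) h0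
  rw [map_zero, spec, Pool.Agent.Helper28.D4.eval_aeval_comp] at h1
  rw [← h1]
  congr 2
  funext i
  rw [Pool.Agent.Helper16.KAL.map_pt]
  simp only [eval_X]
  rfl

theorem exists_point {r κ q t m : ℕ} (ω : Fin n → ℕ)
    (ht : 2 * ((∑ i, min (ω i) (m + 1)) / (m + 1)) ≤ t) (f : MvPolynomial (Fin n) ℂ)
    (hf : f ∈ Circuits n r κ (Light n ω ((r + 1) * m) q)) (h0 : f ≠ 0) :
    ∃ (c : Fin t → Fin (n + 1)) (z : Fin ((r + 1) * κ * q) → ℂ) (y u : Fin (t + 1) → ℂ)
      (v w : Fin r → ℂ), eval (point n ((r + 1) * κ * q) t r c z y u v w) f ≠ 0 := by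
  classical
  obtain ⟨k, P, g, hP, hr, rfl⟩ := hf
  obtain ⟨c, hc⟩ := exists_cuts ω (m + 1) (Nat.succ_pos m) ht
  let H : Finset (Fin n) :=
    univ.filter (fun i => (univ.filter (fun j => blk c j = blk c i)).card ≤ 1)
  have hH : ∀ i ∈ H, ∀ j, blk c j = blk c i → j = i := by
    intro i hi j hj
    have h1 : (univ.filter (fun j => blk c j = blk c i)).card ≤ 1 := (mem_filter.1 hi).2
    exact card_le_one.1 h1 j (mem_filter.2 ⟨mem_univ _, hj⟩) i (mem_filter.2 ⟨mem_univ _, rfl⟩)
  obtain ⟨a, ha⟩ := exists_fixH H _ h0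
  obtain ⟨P', hP'⟩ : ∃ P' : Fin k → MvPolynomial (Fin n) ℂ, P' = fun i => fixH H a (P i) :=
    ⟨_, rfl⟩
  have hgP : ∀ g' : MvPolynomial (Fin k) ℂ, fixH H a (aeval P g') = aeval P' g' := by
    intro g'
    have h1 := comp_aeval P (fixH H a)
    rw [hP', ← h1]
    rfl
  rw [hgP] at ha
  have hr' : ∀ s : Fin (r + 1) → Fin k, ¬ AlgebraicIndependent ℂ (fun i => P' (s i)) := by
    intro s hs
    apply hr s
    rw [hP'] at hs
    exact AlgebraicIndependent.of_comp (fixH H a) hs
  obtain ⟨r', hr1, s, hs, β, h, hβ, hβh⟩ := Pool.Agent.Helper28.D4.norm_trick P' hr' g ha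
  obtain ⟨e, hdet⟩ := Pool.Agent.Helper93.D4.jac_of_algInd (fun i => P' (s i)) hs
  have he : Function.Injective e := by
    intro j k hjk
    by_contra hne
    apply hdet
    apply Matrix.det_zero_of_column_eq hne
    intro i
    rw [Matrix.of_apply, Matrix.of_apply, hjk]
  have heH : ∀ j, e j ∉ H := by
    intro j hj
    apply hdet
    apply Matrix.det_eq_zero_of_column_eq_zero j
    intro i
    rw [Matrix.of_apply]
    apply pderiv_eq_zero_of_notMem_vars
    intro hmem
    rw [hP'] at hmem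
    exact (mem_sdiff.1 (fixH_vars H a _ hmem)).2 hj
  have hc' : ∀ b, (univ.filter (fun i => blk c i = b)).card ≤ 1 ∨
      ∑ i ∈ univ.filter (fun i => blk c i = b), ω i ≤ m := by
    intro b
    rcases hc univ b with h1 | h1
    · exact Or.inl h1
    · exact Or.inr (Nat.lt_succ_iff.1 h1)
  have hω : ∀ j, ω (e j) ≤ m := by
    intro j
    rcases hc' (blk c (e j)) with h1 | h1
    · exact absurd (show e j ∈ H from mem_filter.2 ⟨mem_univ (e j), h1⟩) (heH j)
    · have h2 : e j ∈ univ.filter (fun i => blk c i = blk c (e j)) :=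
        mem_filter.2 ⟨mem_univ _, rfl⟩
      exact (single_le_sum (f := ω) (fun _ _ => Nat.zero_le _) h2).trans h1
  -- factorisation
  have hL : ∀ i, ∃ L : List (MvPolynomial (Fin n) ℂ),
      (∀ x ∈ L, ∃ (A : Fin κ → MvPolynomial (Fin n) ℂ) (F : MvPolynomial (Fin κ) ℂ),
        (∀ j, A j ∈ Light n ω ((r + 1) * m) q) ∧ x = aeval A F) ∧ P' (s i) = L.prod := by
    intro i
    obtain ⟨L, hL1, hL2⟩ := Submonoid.exists_list_of_mem_closure (hP (s i))
    refine ⟨L.map (fixH H a), ?_, ?_⟩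
    · intro x hx
      obtain ⟨x', hx', rfl⟩ := List.mem_map.1 hx
      obtain ⟨A, F, hA, rfl⟩ := hL1 x' hx'
      refine ⟨fun j => fixH H a (A j), F, fun j => light_fixH (hA j) H a, ?_⟩
      have h1 := comp_aeval A (fixH H a)
      rw [← h1]
      rfl
    · rw [hP']
      change fixH H a (P (s i)) = _
      rw [← hL2, map_list_prod]
  choose L hL1 hL2 using hL
  obtain ⟨B, hB1, hB2, fb, mm, hfb0, hfbL, hPm, -⟩ :=
    Pool.Agent.Helper62.VT.exists_factorization (fun i => P' (s i)) L hL2 (fun i => hs.ne_zero i)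
  have hex : ∀ b, ∃ (A : Fin κ → MvPolynomial (Fin n) ℂ) (F : MvPolynomial (Fin κ) ℂ),
      (∀ j, A j ∈ Light n ω ((r + 1) * m) q) ∧ fb b = aeval A F := by
    intro b
    obtain ⟨i, hi⟩ := hfbL b
    exact hL1 i _ hi
  choose A F hA hF using hex
  have h1 := Pool.Agent.Helper62.VT.indep_split (spec n ((r + 1) * κ * q) t c) he
    (fun i => P' (s i)) hdet fb hfb0 mm hPm
    (fun b => {x | ∃ j k, x = coeff k (split e (X : Fin n → MvPolynomial (Fin n) ℂ) (A b j))})
    (by
      intro b k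
      rw [hF b]
      apply Pool.Agent.Helper62.VT.coeff_split_aeval
      intro j
      rw [Pool.Agent.Helper62.VT.mem_W_iff]
      intro k'
      exact Algebra.subset_adjoin ⟨j, k', rfl⟩)
    (by
      intro T hT x hx hx0
      by_contra hne
      apply spec_ne_zero c x _ hx0
      have hcard : Fintype.card (T × Fin κ) * q ≤ (r + 1) * κ * q := by
        rw [Fintype.card_prod, Fintype.card_coe, Fintype.card_fin]
        exact Nat.mul_le_mul_right _ (Nat.mul_le_mul_right _ (hT.trans (Nat.succ_le_succ hr1)))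
      apply core ω c hc' hr1 he hω (fun p : T × Fin κ => A p.1.1 p.2) (fun p => hA _ _) hcard x
        _ hne
      have hset : (⋃ b ∈ T, {x | ∃ j k, x = coeff k
          (split e (X : Fin n → MvPolynomial (Fin n) ℂ) (A b j))}) ⊆
          {a | ∃ (j : T × Fin κ) (k : _), a = coeff k
            (split e (X : Fin n → MvPolynomial (Fin n) ℂ) (A j.1.1 j.2))} := by
        intro y hy
        simp only [Set.mem_iUnion] at hy
        obtain ⟨b, hb, j, k, hy⟩ := hy
        exact ⟨(⟨b, hb⟩, j), k, hy⟩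
      exact Algebra.adjoin_mono hset hx)
  have h2 := Pool.Agent.Helper62.VT.split_ne_zero h1 hβ hβh
  rw [← hgP] at h2
  obtain ⟨z, y, u, v, w, h3⟩ := exists_point_of_split c H hH a hr1 he _ (by
    convert h2 using 3
    funext l
    rw [spec, aeval_X])
  exact ⟨c, z, y, u, v, w, h3⟩

end Pool.Agent.Helper16.KX
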