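import Pool.Agent.Helper16.KX.Defs
import Pool.Agent.Helper28.D4.Hit

set_option autoImplicit false
set_option linter.unusedSectionVars false

/-!
# KX-1: constants for some variables

* `eval_fixH`: `Helper28.D4.eval_aeval_comp`.
* `fixH_vars`: `f ∈ adjoin (X '' f.vars)` (`MvPolynomial.supported`, `mem_supported_vars`), the images of the
  generators are constants or `X i` with `i ∈ f.vars \ H`.
* `fixH_of_disjoint`: `MvPolynomial.eval₂Hom_congr'` / `aeval` depends only on the values at `f.vars`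
  (for example `MvPolynomial.eval₂Hom_eq_constantCoeff_of_vars`-like lemmas, `hom_congr_vars`), `aeval X f = f`.
* `exists_fixH`: choose `a` with `eval a f ≠ 0` (`Helper28.D4.exists_eval_ne_zero`) and evaluate at `a`.
* `KB.fixH`: apply `fixH H a` to the `c k`: variables by `fixH_vars`, membership by
  `Subalgebra.map`/`AlgHom.map_adjoin` (`fixH H a (X i) = X i` for `i ∈ U`), dependence by
  `AlgebraicIndependent.of_comp`.
* `KB.enlarge`: apply `fixH ((A.vars)ᶜ) 0` to the `c k` (it fixes `A`): the new `c k` have variables in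
  `A.vars ∩ (c k).vars`, which is disjoint from `W`.
-/

namespace Pool.Agent.Helper16.KX

open MvPolynomial Finset
open Pool.Agent.Helper16.KAL (KB blk pt)

variable {n : ℕ}

theorem eval_fixH (H : Finset (Fin n)) (a b : Fin n → ℂ) (f : MvPolynomial (Fin n) ℂ) :
    eval b (fixH H a f) = eval (fun i => if i ∈ H then a i else b i) f := by
  unfold fixH
  rw [Helper28.D4.eval_aeval_comp]
  congr 2
  funext i
  by_cases hi : i ∈ H
  · simp [hi]
  · simp [hi]

theorem fixH_vars (H : Finset (Fin n)) (a : Fin n → ℂ) (f : MvPolynomial (Fin n) ℂ) :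
    (fixH H a f).vars ⊆ f.vars \ H := by
  intro j hj
  have h1 := MvPolynomial.vars_bind₁ (fun i => if i ∈ H then C (a i) else X i) f
  have h2 : j ∈ f.vars.biUnion fun i =>
      (if i ∈ H then C (a i) else X i : MvPolynomial (Fin n) ℂ).vars := h1 hj
  rw [mem_biUnion] at h2
  obtain ⟨i, hi, hji⟩ := h2
  by_cases hH : i ∈ H
  · rw [if_pos hH, vars_C] at hji
    exact absurd hji (notMem_empty j)
  · rw [if_neg hH, vars_X, mem_singleton] at hji
    subst hji
    exact mem_sdiff.mpr ⟨hi, hH⟩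

theorem fixH_of_disjoint (H : Finset (Fin n)) (a : Fin n → ℂ) (f : MvPolynomial (Fin n) ℂ)
    (h : Disjoint f.vars H) : fixH H a f = f := by
  refine MvPolynomial.hom_congr_vars (f₁ := (fixH H a : MvPolynomial (Fin n) ℂ →+* _))
    (f₂ := RingHom.id _) ?_ ?_ rfl
  · ext c
    · simp [fixH]
  · intro i hi _
    have hH : i ∉ H := fun h' => (Finset.disjoint_left.mp h) hi h'
    simp [fixH, hH]

theorem exists_fixH (H : Finset (Fin n)) (f : MvPolynomial (Fin n) ℂ) (hf : f ≠ 0) :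
    ∃ a : Fin n → ℂ, fixH H a f ≠ 0 := by
  obtain ⟨a, ha⟩ := Helper28.D4.exists_eval_ne_zero f hf
  refine ⟨a, fun h0 => ha ?_⟩
  have h1 := eval_fixH H a a f
  rw [h0, map_zero] at h1
  simp only [ite_self] at h1
  exact h1.symm

private theorem fixH_adjoin {U H : Finset (Fin n)} (hd : Disjoint U H) (a : Fin n → ℂ) {M : ℕ}
    (c : Fin M → MvPolynomial (Fin n) ℂ) {A : MvPolynomial (Fin n) ℂ}
    (hA : A ∈ Algebra.adjoin ℂ ((fun i => X i) '' (U : Set (Fin n)) ∪ Set.range c)) :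
    fixH H a A ∈ Algebra.adjoin ℂ ((fun i => X i) '' (U : Set (Fin n)) ∪
      Set.range (fun k => fixH H a (c k))) := by
  have h1 : fixH H a A ∈ (Algebra.adjoin ℂ ((fun i => X i) '' (U : Set (Fin n)) ∪
      Set.range c)).map (fixH H a) := ⟨A, hA, rfl⟩
  rw [AlgHom.map_adjoin] at h1
  refine Algebra.adjoin_mono ?_ h1
  rintro _ ⟨x, hx, rfl⟩
  rcases hx with ⟨i, hi, rfl⟩ | ⟨k, rfl⟩
  · left
    refine ⟨i, hi, ?_⟩
    have hH : i ∉ H := fun h' => (Finset.disjoint_left.mp hd) hi h'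
    simp [fixH, hH]
  · right
    exact ⟨k, rfl⟩

private theorem fixH_indep {H : Finset (Fin n)} {a : Fin n → ℂ} {M ρ : ℕ}
    {c : Fin M → MvPolynomial (Fin n) ℂ}
    (hc : ∀ s : Fin (ρ + 1) → Fin M, ¬ AlgebraicIndependent ℂ (fun i => c (s i)))
    (s : Fin (ρ + 1) → Fin M) : ¬ AlgebraicIndependent ℂ (fun i => fixH H a (c (s i))) := by
  intro h
  exact hc s (AlgebraicIndependent.of_comp (fixH H a) h)

theorem kb_fixH {U H : Finset (Fin n)} {ρ : ℕ} {A : MvPolynomial (Fin n) ℂ} (hK : KB U ρ A)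
    (hd : Disjoint U H) (a : Fin n → ℂ) : KB U ρ (fixH H a A) := by
  obtain ⟨M, c, h1, h2, h3⟩ := hK
  refine ⟨M, fun k => fixH H a (c k), fun k => ?_, fixH_adjoin hd a c h2, fixH_indep h3⟩
  exact Finset.disjoint_of_subset_left ((fixH_vars H a (c k)).trans sdiff_subset) (h1 k)

theorem light_fixH {ω : Fin n → ℕ} {τ q : ℕ} {A : MvPolynomial (Fin n) ℂ}
    (hA : A ∈ Light n ω τ q) (H : Finset (Fin n)) (a : Fin n → ℂ) :
    fixH H a A ∈ Light n ω τ q := by
  intro U hU hω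
  have h1 := hU.trans (fixH_vars H a A)
  obtain ⟨ρ, hρ, hq⟩ := hA U (h1.trans sdiff_subset) hω
  refine ⟨ρ, kb_fixH hρ ?_ a, hq⟩
  rw [Finset.disjoint_left]
  intro i hi
  exact (mem_sdiff.mp (h1 hi)).2

theorem kb_enlarge {W : Finset (Fin n)} {ρ : ℕ} {A : MvPolynomial (Fin n) ℂ}
    (hK : KB (A.vars ∩ W) ρ A) :
    ∃ (M : ℕ) (c : Fin M → MvPolynomial (Fin n) ℂ), (∀ k, Disjoint (c k).vars W) ∧
      A ∈ Algebra.adjoin ℂ ((fun i => X i) '' ((A.vars ∩ W : Finset (Fin n)) : Set (Fin n)) ∪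
        Set.range c) ∧
      ∀ s : Fin (ρ + 1) → Fin M, ¬ AlgebraicIndependent ℂ (fun i => c (s i)) := by
  obtain ⟨M, c, h1, h2, h3⟩ := hK
  have hd : Disjoint (A.vars ∩ W) (A.vars)ᶜ := by
    rw [Finset.disjoint_left]
    intro i hi
    rw [mem_compl, not_not]
    exact (mem_inter.mp hi).1
  have hA : fixH (A.vars)ᶜ 0 A = A := fixH_of_disjoint _ _ _ disjoint_compl_right
  have h4 := fixH_adjoin hd 0 c h2
  rw [hA] at h4
  refine ⟨M, fun k => fixH (A.vars)ᶜ 0 (c k), fun k => ?_, h4, fixH_indep h3⟩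
  rw [Finset.disjoint_left]
  intro i hi hiW
  have h5 := fixH_vars (A.vars)ᶜ 0 (c k) hi
  rw [mem_sdiff, mem_compl, not_not] at h5
  exact (Finset.disjoint_left.mp (h1 k)) h5.1 (mem_inter.mpr ⟨h5.2, hiW⟩)

end Pool.Agent.Helper16.KX
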